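import Pool.Agent.R284.HJ.Fin

set_option autoImplicit false

namespace Pool.Agent.Results.MP_fab550_an.NotRealizable

open Pool.Agent.R284.HJ

/-- Full (negative) answer of Q1: some symmetric convex body `K` of the plane is not `S_a` for any
`a ∈ L^∞(𝕋²,(0,∞))` with positive essential lower bound. -/
theorem result : ∃ K : Set Pl, InW K ∧ ∀ a : Pl → ℝ, Admissible a → Sa a ≠ K := final

end Pool.Agent.Results.MP_fab550_an.NotRealizable
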